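import Pool.Agent.Helper92.RK.Defs
import Pool.Agent.Helper92.AM.Final

set_option autoImplicit false

/-!
# Read-k DNF formulas: the learner and the statements about it
-/

namespace Pool.Agent.Helper92.RK

open Finset
open Pool.Agent.NPC
open Pool.Agent.Helper92
open Pool.Agent.Helper92.AM (subs par Fine fs sample)

/-- All the literals of `ρ` are true at `x`. -/
def satL (ρ : List (ℕ × Bool)) (x : List Bool) : Bool :=
  ρ.all fun l => decide (x.getD l.1 false = l.2)

/-- Number of the positive examples which satisfy `ρ` and have parity `b` on `S`. -/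
def cnt (s : List (List Bool × Bool)) (ρ : List (ℕ × Bool)) (S : List ℕ) (b : Bool) : ℕ :=
  (s.filter fun z => z.2 && satL ρ z.1 && decide (par S z.1 = b)).length

/-- The estimate of the absolute correlation is at least `3 / (4 q P)`. -/
def big (q P : ℕ) (s : List (List Bool × Bool)) (ρ : List (ℕ × Bool)) (S : List ℕ) : Bool :=
  decide (3 * s.length ≤ 4 * q * P * ((cnt s ρ S true - cnt s ρ S false) +
    (cnt s ρ S false - cnt s ρ S true)))

/-- The coordinates which occur together with `i` in a small set of large correlation. -/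
def vhat (W D q P n i : ℕ) (ρ : List (ℕ × Bool)) (s : List (List Bool × Bool)) : List ℕ :=
  (List.range n).filter fun j => (subs W D (List.range n)).any fun S =>
    decide (i ∈ S) && decide (j ∈ S) && (S.all fun a => !decide (a ∈ ρ.map Prod.fst)) &&
      big q P s ρ S

/-- The restrictions of at most `r` coordinates. -/
def rhos (W r n : ℕ) : List (List (ℕ × Bool)) :=
  (subs W r (List.range n)).flatMap fun A => (subs W r A).map fun B =>
    A.map fun a => (a, decide (a ∈ B))

/-- The candidates for one restriction and one coordinate and one threshold. -/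
def cand1 (W D u q B n t : ℕ) (s : List (List Bool × Bool)) (ρ : List (ℕ × Bool)) (i P : ℕ) :
    List (List ℕ) :=
  if (vhat W D q P n i ρ s).length ≤ B * Nat.size t then
    (subs W u (List.range n)).map fun U => vhat W D q P n i ρ s ++ U else []

/-- The candidates for the sets of variables of the terms. -/
def cand (W L0 r D u q B n t : ℕ) (s : List (List Bool × Bool)) : List (List ℕ) :=
  subs W L0 (List.range n) ++ (rhos W r n).flatMap fun ρ => (List.range n).flatMap fun i =>
    (List.range (t + 1)).flatMap fun P => cand1 W D u q B n t s ρ i P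

/-- A hypothesis: sets of variables, and negative examples. -/
abbrev Hy : Type := List (List ℕ) × List (List Bool)

/-- The value of a hypothesis: on some of the sets of variables, the point differs from every
negative example. -/
def hv (H : Hy) (x : List Bool) : Bool :=
  H.1.any fun V => H.2.all fun z => !(V.all fun i => decide (z.getD i false = x.getD i false))

/-- The negative examples. -/
def negs (s : List (List Bool × Bool)) : List (List Bool) :=
  (s.filter fun z => !z.2).map Prod.fst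

/-- The first half of the sample. -/
def half1 (s : List (List Bool × Bool)) : List (List Bool × Bool) :=
  (s.zipIdx.filter fun z => decide (z.2 < s.length / 2)).map Prod.fst

/-- The second half of the sample. -/
def half2 (s : List (List Bool × Bool)) : List (List Bool × Bool) :=
  (s.zipIdx.filter fun z => decide (s.length / 2 ≤ z.2)).map Prod.fst

/-- The number of the variables. -/
def nv (s : List (List Bool × Bool)) : ℕ := (s.headD ([], false)).1.length

/-- The learner. -/
def lrn (L0 r D u q B e t : ℕ) (s : List (List Bool × Bool)) : Hy :=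
  if 4 * e * (negs (half2 s)).length ≤ (half2 s).length then ([[]], [])
  else (cand t L0 r D u q B (nv s) t (half1 s), negs (half2 s))

variable {n : ℕ}

/-- The set of literals of a list. -/
def tl (ρ : List (ℕ × Bool)) : Tm n := univ.filter fun l => ((l.1 : ℕ), l.2) ∈ ρ

open Classical in
/-- The Boolean value of a formula. -/
noncomputable def vb (F : Finset (Tm n)) (x : Fin n → Bool) : Bool := decide (val F x)

/-- The estimates of all the correlations are good. -/
def Est (F : Finset (Tm n)) (s : List (List Bool × Bool)) (D r : ℕ) (η : ℝ) : Prop :=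
  ∀ (ρ : List (ℕ × Bool)) (S : List ℕ), Fine n S → S.length ≤ D → Fine n (ρ.map Prod.fst) →
    ρ.length ≤ r →
    |((cnt s ρ S false : ℝ) - cnt s ρ S true) / s.length - Mco F (tl ρ) (fs S)| ≤ η

/-- The data which make a term visible. -/
def Vis (F : Finset (Tm n)) (r D u B q : ℕ) (T : Tm n) : Prop :=
  ∃ (i : Fin n) (ρ : Tm n) (V0 U : Finset (Fin n)),
      Con ρ ∧ i ∉ vr ρ ∧ ρ.card ≤ r ∧ U.card ≤ u ∧ V0.card ≤ B * T.card ∧
      (∀ S : Finset (Fin n), S.card ≤ D → i ∈ S → Disjoint S (vr ρ) →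
        1 / (2 * q : ℝ) * (1 / 2 : ℝ) ^ T.card ≤ |Mco F ρ S| → S ⊆ V0) ∧
      ∀ j ∈ vr T, j ∉ U → ∃ S : Finset (Fin n), S.card ≤ D ∧ i ∈ S ∧ j ∈ S ∧
        Disjoint S (vr ρ) ∧ 1 / (q : ℝ) * (1 / 2 : ℝ) ^ T.card ≤ |Mco F ρ S|

/-! ### Statements -/

/-- With good estimates the variables of every visible term of length at most `log t` are found. -/
def S_COR : Prop := ∀ (L0 r D u q B n t : ℕ) (F : Finset (Tm n)) (s : List (List Bool × Bool))
  (T : Tm n), 0 < q → 0 < s.length → (n + 1) ^ (L0 + r + D + u) ≤ t →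
  Est F s D r (1 / (4 * q * t : ℝ)) → 2 ^ T.card ≤ t → Con T →
  (L0 < T.card → Vis F r D u B q T) →
  ∃ V ∈ cand t L0 r D u q B n t s, ∀ i ∈ vr T, (i : ℕ) ∈ V

/-- The number and the sizes of the candidates. -/
def S_CSZ : Prop := ∀ (L0 r D u q B n t : ℕ) (s : List (List Bool × Bool)), 1 ≤ t → n ≤ t →
  (cand t L0 r D u q B n t s).length ≤ (2 * t + 2) ^ 6 ∧
  ∀ V ∈ cand t L0 r D u q B n t s, V.length ≤ B * Nat.size t + u + L0

/-- Hoeffding for all the estimates. -/
def S_HOE : Prop := ∀ (n D r m : ℕ) (F : Finset (Tm n)) (η : ℝ), 0 < m → 0 ≤ η → η ≤ 1 →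
  AM.prob (fun x : Fin m → Fin n → Bool => ¬ Est F (sample (vb F) x) D r η) ≤
    (n + 1 : ℝ) ^ D * (2 * n + 1 : ℝ) ^ r * (2 * Real.exp (-(m * η ^ 2 / 4)))

/-- The number of the negative examples. -/
def S_NEG : Prop := ∀ (n m : ℕ) (f : (Fin n → Bool) → Bool) (η : ℝ), 0 < m → 0 ≤ η → η ≤ 1 →
  AM.prob (fun x : Fin m → Fin n → Bool =>
    η < |((negs (sample f x)).length : ℝ) / m - AM.prob (fun y : Fin n → Bool => f y = false)|) ≤
    2 * Real.exp (-(m * η ^ 2 / 4))

/-- Expected false positives of a fixed list of sets of variables. -/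
def S_FPB : Prop := ∀ (n b m : ℕ) (C : List (List ℕ)) (f : (Fin n → Bool) → Bool), 0 < m →
  (∀ V ∈ C, V.length ≤ b) →
  (∑ x : Fin m → Fin n → Bool, AM.prob (fun y : Fin n → Bool => f y = false ∧
    hv (C, negs (sample f x)) (List.ofFn y) = true)) / ((2 : ℝ) ^ n) ^ m ≤ C.length * 2 ^ b / m

/-- First half of the points. -/
def fstH {m : ℕ} (x : Fin m → Fin n → Bool) : Fin (m / 2) → Fin n → Bool :=
  fun j => x ⟨j, lt_of_lt_of_le j.2 (Nat.div_le_self m 2)⟩

/-- Second half of the points. -/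
def sndH {m : ℕ} (x : Fin m → Fin n → Bool) : Fin (m - m / 2) → Fin n → Bool :=
  fun j => x ⟨m / 2 + j, by have := j.2; omega⟩

/-- The halves are independent. -/
def S_SPL : Prop := ∀ (n m : ℕ),
  (∀ (E : (Fin (m / 2) → Fin n → Bool) → (Fin (m - m / 2) → Fin n → Bool) → Prop) (p : ℝ),
    (∀ x1, AM.prob (E x1) ≤ p) →
    AM.prob (fun x : Fin m → Fin n → Bool => E (fstH x) (sndH x)) ≤ p) ∧
  ∀ A : (Fin (m / 2) → Fin n → Bool) → Prop,
    AM.prob (fun x : Fin m → Fin n → Bool => A (fstH x)) = AM.prob A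

/-- The halves of the sample. -/
def S_HLF : Prop := ∀ (n m : ℕ) (f : (Fin n → Bool) → Bool) (x : Fin m → Fin n → Bool),
  half1 (sample f x) = sample f (fstH x) ∧ half2 (sample f x) = sample f (sndH x)

/-- The positive points which are missed. -/
def S_ERR : Prop := ∀ (k L0 r D u q B e n t : ℕ) (F G : Finset (Tm n))
  (s : List (List Bool × Bool)) (N : List (List Bool)), 0 < q → 1 ≤ e → 0 < s.length →
  (n + 1) ^ (L0 + r + D + u) ≤ t → 4 * e * (k * n + 1) ≤ t → Read k F → (∀ b ∈ F, Con b) →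
  Est F s D r (1 / (4 * q * t : ℝ)) → G ⊆ F →
  pr (fun x => val F x ∧ ∀ T ∈ G, ¬ Sat T x) ≤ 1 / (4 * e) →
  (∀ T ∈ G, L0 < T.card → Vis F r D u B q T) →
  (∀ z ∈ N, ∃ y : Fin n → Bool, z = List.ofFn y ∧ vb F y = false) →
  AM.prob (fun y : Fin n → Bool => vb F y = true ∧
    hv (cand t L0 r D u q B n t s, N) (List.ofFn y) = false) ≤ 1 / (2 * e)

/-- The numerical estimates. -/
def S_NUM : Prop := ∀ k e L0 r D u B q : ℕ, 1 ≤ e → 1 ≤ q → ∃ C : ℕ, ∀ n d t m : ℕ, 1 ≤ d →
  ((n + 2) * d) ^ C ≤ t → t ^ C ≤ m →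
  n ≤ t ∧ 1 ≤ t ∧ 1 ≤ m / 2 ∧ (n + 1) ^ (L0 + r + D + u) ≤ t ∧ 4 * e * (k * n + 1) ≤ t ∧
  (n + 1 : ℝ) ^ D * (2 * n + 1 : ℝ) ^ r *
    (2 * Real.exp (-(((m / 2 : ℕ) : ℝ) * (1 / (4 * q * t : ℝ)) ^ 2 / 4))) ≤ 1 / (3 * d) ∧
  2 * Real.exp (-(((m - m / 2 : ℕ) : ℝ) * (1 / (8 * e : ℝ)) ^ 2 / 4)) ≤ 1 / (3 * d) ∧
  4 * e * ((2 * t + 2 : ℝ) ^ 6 * 2 ^ (B * Nat.size t + u + L0) / ((m - m / 2 : ℕ) : ℝ)) ≤
    1 / (3 * d)

/-- The theorem for formulas as sets of terms. -/
def S_ASM : Prop := ∀ (k e : ℕ), 1 ≤ e → ∃ C L0 r D u B q : ℕ, ∀ n d t m : ℕ, 1 ≤ d →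
  ((n + 2) * d) ^ C ≤ t → t ^ C ≤ m → ∀ F : Finset (Tm n), Read k F → (∀ b ∈ F, Con b) →
  AM.prob (fun x : Fin m → Fin n → Bool => 1 / (e : ℝ) < AM.prob (fun y : Fin n → Bool =>
    hv (lrn L0 r D u q B e t (sample (vb F) x)) (List.ofFn y) ≠ vb F y)) ≤ 1 / d

/-- The learner is computed in polynomial time. -/
def S_TML : Prop := ∀ L0 r D u q B e : ℕ, NPC.Poly
  (fun z : List Unit × List (List Bool × Bool) => lrn L0 r D u q B e z.1.length z.2)

/-- The evaluation of a hypothesis is computed in polynomial time. -/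
def S_TMH : Prop := NPC.Poly (fun z : Hy × List Bool => hv z.1 z.2)

/-- The value of a formula given as a list of lists of literals. -/
def valL (F : List (List (ℕ × Bool))) (x : List Bool) : Bool :=
  F.any fun T => T.all fun l => decide (x[l.1]? = some l.2)

/-- Every variable occurs in at most `k` terms. -/
def ReadL (k : ℕ) (F : List (List (ℕ × Bool))) : Prop :=
  ∀ i : ℕ, (F.filter fun T => T.any fun l => decide (l.1 = i)).length ≤ k

/-- From lists to sets. -/
def S_CNV : Prop := ∀ (k n : ℕ) (F : List (List (ℕ × Bool))), ReadL k F →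
  ∃ F' : Finset (Tm n), Read k F' ∧ (∀ b ∈ F', Con b) ∧
    ∀ x : Fin n → Bool, valL F (List.ofFn x) = vb F' x

end Pool.Agent.Helper92.RK
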