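import Mathlib

set_option autoImplicit false

/-!
# Read-k DNF formulas: definitions and the statements of the structural parts
-/

namespace Pool.Agent.Helper92.RK

open Finset

open Classical in
/-- Uniform probability of an event on the cube. -/
noncomputable def pr {n : ℕ} (E : (Fin n → Bool) → Prop) : ℝ :=
  ((univ.filter E).card : ℝ) / 2 ^ n

/-- A literal: the coordinate `l.1` has to be `l.2`. -/
abbrev Lit (n : ℕ) : Type := Fin n × Bool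

/-- A term (or a restriction): a set of literals. -/
abbrev Tm (n : ℕ) : Type := Finset (Fin n × Bool)

variable {n : ℕ}

/-- All the literals are true at the point. -/
def Sat (T : Tm n) (x : Fin n → Bool) : Prop := ∀ l ∈ T, x l.1 = l.2

/-- The variables of a term. -/
def vr (T : Tm n) : Finset (Fin n) := T.image Prod.fst

/-- No two opposite literals. -/
def Con (T : Tm n) : Prop := ∀ l ∈ T, ∀ l' ∈ T, l.1 = l'.1 → l = l'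

/-- The event depends only on the coordinates in `A`. -/
def Dep (E : (Fin n → Bool) → Prop) (A : Finset (Fin n)) : Prop :=
  ∀ x y : Fin n → Bool, (∀ i ∈ A, x i = y i) → (E x ↔ E y)

/-- Change of one coordinate. -/
def fl (x : Fin n → Bool) (i : Fin n) : Fin n → Bool := Function.update x i (!x i)

/-- Every variable occurs in at most `k` members of the indexed family. -/
def Rd {ι : Type} (k : ℕ) (s : Finset ι) (R : ι → Tm n) : Prop :=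
  ∀ i : Fin n, (s.filter fun b => i ∈ vr (R b)).card ≤ k

/-- Total weight of an indexed family. -/
noncomputable def wt {ι : Type} (s : Finset ι) (R : ι → Tm n) : ℝ :=
  ∑ b ∈ s, (1 / 2 : ℝ) ^ (R b).card

/-- No member of the family is satisfied. -/
def Avoid {ι : Type} (s : Finset ι) (R : ι → Tm n) (x : Fin n → Bool) : Prop :=
  ∀ b ∈ s, ¬ Sat (R b) x

/-- Every variable occurs in at most `k` terms of the formula. -/
def Read (k : ℕ) (F : Finset (Tm n)) : Prop := ∀ i : Fin n, (F.filter fun T => i ∈ vr T).card ≤ k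

/-- The formula is true at the point. -/
def val (F : Finset (Tm n)) (x : Fin n → Bool) : Prop := ∃ T ∈ F, Sat T x

/-- Total weight of the formula. -/
noncomputable def w1 (F : Finset (Tm n)) : ℝ := ∑ T ∈ F, (1 / 2 : ℝ) ^ T.card

/-- Given `T`, no strictly shorter term is satisfied, with probability at least `δ`. -/
def Need (F : Finset (Tm n)) (δ : ℝ) (T : Tm n) : Prop :=
  δ * (1 / 2 : ℝ) ^ T.card ≤ pr (fun x => Sat T x ∧ ∀ b ∈ F, b.card < T.card → ¬ Sat b x)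

/-- The part of `b` outside of the variables of `T`. -/
def out (T b : Tm n) : Tm n := b.filter fun l => l.1 ∉ vr T

/-- `b` has no conflict with `T` except possibly at the coordinate `i`. -/
def Cmp (T b : Tm n) (i : Fin n) : Prop := ∀ l ∈ b, l.1 ∈ vr T → l.1 ≠ i → l ∈ T

open Classical in
/-- The terms which have to be false after the change of the coordinate of the literal `l` of `T`,
and the shorter ones compatible with `T`. -/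
noncomputable def BB (F : Finset (Tm n)) (T : Tm n) (l : Fin n × Bool) : Finset (Tm n) :=
  F.filter fun b => Cmp T b l.1 ∧ (b.card < T.card ∨ l ∉ b)

open Classical in
/-- The shorter terms which are consistent with `T`. -/
noncomputable def EE (F : Finset (Tm n)) (T : Tm n) : Finset (Tm n) :=
  F.filter fun b => b.card < T.card ∧ Con (b ∪ T)

open Classical in
/-- Indicator of the formula. -/
noncomputable def vi (F : Finset (Tm n)) (x : Fin n → Bool) : ℝ := if val F x then 1 else 0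

/-- Mixed difference in two coordinates. -/
noncomputable def DD (F : Finset (Tm n)) (i j : Fin n) (x : Fin n → Bool) : ℝ :=
  vi F x + vi F (fl (fl x i) j) - vi F (fl x i) - vi F (fl x j)

/-- Character. -/
def chi (S : Finset (Fin n)) (x : Fin n → Bool) : ℝ := ∏ i ∈ S, (if x i then -1 else 1)

open Classical in
/-- The correlation of the formula, restricted by `ρ`, with the character of `S`. -/
noncomputable def Mco (F : Finset (Tm n)) (ρ : Tm n) (S : Finset (Fin n)) : ℝ :=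
  (∑ x : Fin n → Bool, if val F x ∧ Sat ρ x then chi S x else 0) / 2 ^ n

/-- The lengths of the terms which touch `i` and survive `ρ` are at least that of `T`. -/
def Lng (F : Finset (Tm n)) (T ρ : Tm n) (i : Fin n) : Prop :=
  ∀ b ∈ F, i ∈ vr b → Con (b ∪ ρ) → T.card ≤ b.card

/-! ### The statements -/

/-- Independence of events which depend on disjoint sets of coordinates. -/
def S_IND : Prop := ∀ (n : ℕ) (E E' : (Fin n → Bool) → Prop) (A B : Finset (Fin n)),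
  Disjoint A B → Dep E A → Dep E' B → pr (fun x => E x ∧ E' x) = pr E * pr E'

/-- Probability of a term. -/
def S_SAT : Prop := ∀ (n : ℕ) (T : Tm n), Con T → pr (Sat T) = (1 / 2 : ℝ) ^ T.card

/-- Upper bound for read-k families (Finner, Shearer). -/
def S_FIN : Prop := ∀ (n k : ℕ) (ι : Type) (s : Finset ι) (R : ι → Tm n), 1 ≤ k →
  (∀ b ∈ s, Con (R b)) → Rd k s R → pr (Avoid s R) ≤ Real.exp (-(wt s R / k))

open Classical in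
/-- The Lovász local lemma for terms. -/
def S_LLL : Prop := ∀ (n : ℕ) (ι : Type) (s : Finset ι) (R : ι → Tm n) (w : ι → ℝ),
  (∀ b ∈ s, Con (R b)) → (∀ b ∈ s, 0 ≤ w b ∧ w b < 1) →
  (∀ b ∈ s, (1 / 2 : ℝ) ^ (R b).card ≤
    w b * ∏ c ∈ s.filter (fun c => c ≠ b ∧ ¬ Disjoint (vr (R b)) (vr (R c))), (1 - w c)) →
  ∏ b ∈ s, (1 - w b) ≤ pr (Avoid s R)

/-- Long terms of bounded total weight are avoided with probability bounded from below. -/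
def S_GEN : Prop := ∀ (k : ℕ) (M : ℝ), 0 ≤ M → ∃ h : ℕ, ∀ (n : ℕ) (ι : Type) (s : Finset ι)
  (R : ι → Tm n), (∀ b ∈ s, Con (R b)) → Rd k s R → (∀ b ∈ s, h ≤ (R b).card) → wt s R ≤ M →
  Real.exp (-(4 * M)) / 2 ≤ pr (Avoid s R)

open Classical in
/-- A restriction which kills the short members. -/
def S_FIX : Prop := ∀ (k h : ℕ) (M δ : ℝ), 0 < δ → 0 ≤ M → ∃ L q : ℕ, ∀ (n : ℕ) (ι : Type)
  (s e : Finset ι) (R : ι → Tm n), e ⊆ s → (∀ b ∈ s, Con (R b)) → Rd k s R → wt s R ≤ M →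
  δ ≤ pr (Avoid e R) → (∀ b ∈ s, b ∉ e → L ≤ (R b).card) →
  ∃ ρ : Tm n, Con ρ ∧ ρ.card ≤ q ∧ (∀ i ∈ vr ρ, ∃ b ∈ s, i ∈ vr (R b)) ∧
    (∀ b ∈ s, Con (R b ∪ ρ) → h ≤ (R b \ ρ).card) ∧
    ∑ b ∈ s.filter (fun b => Con (R b ∪ ρ)), (1 / 2 : ℝ) ^ (R b \ ρ).card ≤ 4 * M / δ

/-- Killing a bounded number of terms by single literals. -/
def S_KIL : Prop := ∀ (m : ℕ) (c : ℝ), 0 < c → ∃ (h : ℕ) (c' : ℝ), 0 < c' ∧
  ∀ (n : ℕ) (Z : (Fin n → Bool) → Prop) (ρ : Tm n) (K : Finset (Tm n)), Con ρ → K.card ≤ m →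
  c * (1 / 2 : ℝ) ^ ρ.card ≤ pr (fun x => Z x ∧ Sat ρ x) →
  ∃ σ : Tm n, ρ ⊆ σ ∧ Con σ ∧ σ.card ≤ ρ.card + m ∧
    (∀ i ∈ vr σ, i ∈ vr ρ ∨ ∃ T ∈ K, i ∈ vr T) ∧
    (∀ T ∈ K, ¬ Con (T ∪ σ) ∨ (T \ σ).card < h) ∧
    c' * (1 / 2 : ℝ) ^ σ.card ≤ pr (fun x => Z x ∧ Sat σ x)

/-- A good literal of `T`. -/
def S_GDI : Prop := ∀ (k L : ℕ) (M : ℝ), ∃ L0 : ℕ, ∀ (n : ℕ) (F : Finset (Tm n)) (T : Tm n),
  Read k F → (∀ b ∈ F, Con b) → w1 F ≤ M → T ∈ F → L0 ≤ T.card →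
  ∃ l ∈ T, ∀ b ∈ F, Cmp T b l.1 → l ∉ b → (T.card ≤ b.card ∨ l.1 ∈ vr b) → L ≤ (out T b).card

/-- Weight of the family `BB`. -/
def S_WTB : Prop := ∀ (k : ℕ) (M M1 : ℝ), ∃ M3 : ℝ, 0 ≤ M3 ∧ ∀ (n : ℕ) (F : Finset (Tm n))
  (T : Tm n) (l : Fin n × Bool), Read k F → (∀ b ∈ F, Con b) → w1 F ≤ M → T ∈ F → l ∈ T →
  wt (EE F T) (out T) ≤ M1 → wt (BB F T l) (out T) ≤ M3

/-- Needed terms: the shorter terms given `T`. -/
def S_CM1 : Prop := ∀ (k : ℕ) (δ : ℝ), 0 < δ → ∃ M1 : ℝ, ∀ (n : ℕ) (F : Finset (Tm n))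
  (T : Tm n), Read k F → (∀ b ∈ F, Con b) → T ∈ F → Need F δ T →
  wt (EE F T) (out T) ≤ M1 ∧ δ ≤ pr (Avoid (EE F T) (out T))

/-- First restriction. -/
def S_CM2 : Prop := ∀ (k : ℕ) (M δ : ℝ), 0 < δ → ∃ c : ℝ, 0 < c ∧ ∀ h : ℕ, ∃ L0 q : ℕ,
  ∀ (n : ℕ) (F : Finset (Tm n)) (T : Tm n), Read k F → (∀ b ∈ F, Con b) → w1 F ≤ M → T ∈ F →
  L0 ≤ T.card → Need F δ T →
  ∃ l ∈ T, ∃ ρ : Tm n, Con ρ ∧ Disjoint (vr ρ) (vr T) ∧ ρ.card ≤ q ∧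
    (∀ b ∈ BB F T l, Con (out T b ∪ ρ) → h ≤ (out T b \ ρ).card) ∧
    c * (1 / 2 : ℝ) ^ ρ.card ≤ pr (fun x => Avoid (BB F T l) (out T) x ∧ Sat ρ x)

/-- The restriction for a needed term. -/
def S_CMB : Prop := ∀ (k : ℕ) (M δ : ℝ), 0 < δ → ∃ (L0 r : ℕ) (c : ℝ), 0 < c ∧
  ∀ (n : ℕ) (F : Finset (Tm n)) (T : Tm n), Read k F → (∀ b ∈ F, Con b) → w1 F ≤ M → T ∈ F →
  L0 ≤ T.card → Need F δ T →
  ∃ l ∈ T, ∃ ρ : Tm n, Con (T ∪ ρ) ∧ l.1 ∉ vr ρ ∧ ρ.card ≤ r ∧ Lng F T ρ l.1 ∧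
    c * (1 / 2 : ℝ) ^ (T ∪ ρ).card ≤ pr (fun x => Sat (T ∪ ρ) x ∧ ∀ b ∈ F, ¬ Sat b (fl x l.1))

/-- Mass of the mixed differences. -/
def S_MAS : Prop := ∀ (k r : ℕ) (c : ℝ), 0 < c → ∃ (u : ℕ) (c2 : ℝ), 0 < c2 ∧
  ∀ (n : ℕ) (F : Finset (Tm n)) (T ρ : Tm n) (l : Fin n × Bool), Read k F → (∀ b ∈ F, Con b) →
  T ∈ F → l ∈ T → Con (T ∪ ρ) → l.1 ∉ vr ρ → ρ.card ≤ r → Lng F T ρ l.1 →
  c * (1 / 2 : ℝ) ^ (T ∪ ρ).card ≤ pr (fun x => Sat (T ∪ ρ) x ∧ ∀ b ∈ F, ¬ Sat b (fl x l.1)) →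
  ∃ U : Finset (Fin n), U.card ≤ u ∧ ∀ l' ∈ T, l'.1 ∉ U → l' ≠ l ∧ l'.1 ∉ vr ρ ∧
    c2 * (1 / 2 : ℝ) ^ (T ∪ ρ).card ≤ pr (fun x => Sat (T ∪ ρ) x ∧ DD F l.1 l'.1 x ≠ 0)

/-- Detection, first half. -/
def S_DT1 : Prop := ∀ (k r : ℕ) (c : ℝ), 0 < c → ∃ (D : ℕ) (θ : ℝ), 0 < θ ∧
  ∀ (n : ℕ) (F : Finset (Tm n)) (T ρ : Tm n) (l l' : Fin n × Bool), Read k F →
  (∀ b ∈ F, Con b) → T ∈ F → l ∈ T → l' ∈ T → l ≠ l' → Con (T ∪ ρ) → l.1 ∉ vr ρ → l'.1 ∉ vr ρ →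
  ρ.card ≤ r → Lng F T ρ l.1 →
  c * (1 / 2 : ℝ) ^ (T ∪ ρ).card ≤ pr (fun x => Sat (T ∪ ρ) x ∧ DD F l.1 l'.1 x ≠ 0) →
  ∃ σ : Tm n, ρ ⊆ σ ∧ Con σ ∧ σ.card ≤ D ∧ l.1 ∉ vr σ ∧ l'.1 ∉ vr σ ∧
    θ * (1 / 2 : ℝ) ^ T.card ≤ |Mco F σ {l.1, l'.1}|

/-- From a subcube to a character. -/
def S_DT2 : Prop := ∀ (n : ℕ) (F : Finset (Tm n)) (ρ σ : Tm n) (S : Finset (Fin n)), ρ ⊆ σ →
  Con σ → Disjoint S (vr σ) → ∃ S' ⊆ vr (σ \ ρ), |Mco F σ S| ≤ |Mco F ρ (S ∪ S')|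

/-- Few false positives: a large correlation gives two terms with a small union. -/
def S_FPO : Prop := ∀ (n k : ℕ) (F : Finset (Tm n)) (ρ : Tm n) (S : Finset (Fin n)) (i j : Fin n),
  Read k F → (∀ b ∈ F, Con b) → i ∈ S → j ∈ S → Disjoint S (vr ρ) → ∀ θ : ℝ, 0 < θ →
  θ ≤ |Mco F ρ S| → ∃ a ∈ F, ∃ b ∈ F, i ∈ vr a ∧ j ∈ vr b ∧ Con (a ∪ ρ) ∧ Con (b ∪ ρ) ∧
    θ ≤ (2 * k : ℝ) ^ S.card * (1 / 2 : ℝ) ^ (vr a ∪ vr b).card

/-- The number of the variables of the terms close to the terms which touch `i`. -/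
def S_VSZ : Prop := ∀ (k c : ℕ) (M : ℝ), ∃ B : ℕ, ∀ (n : ℕ) (F : Finset (Tm n)) (L : ℕ)
  (i : Fin n), Read k F → (∀ b ∈ F, Con b) → w1 F ≤ M →
  ∀ V : Finset (Fin n), (∀ j ∈ V, ∃ a ∈ F, ∃ b ∈ F, i ∈ vr a ∧ j ∈ vr b ∧ L ≤ a.card ∧
    (vr a ∪ vr b).card ≤ L + c) → V.card ≤ B * (L + 1)

/-- The points which satisfy no needed term. -/
def S_NEE : Prop := ∀ (n : ℕ) (F : Finset (Tm n)) (M δ : ℝ), (∀ b ∈ F, Con b) → w1 F ≤ M →
  0 ≤ δ → pr (fun x => val F x ∧ ∀ T ∈ F, Need F δ T → ¬ Sat T x) ≤ δ * M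

/-- The structure theorem for read-k formulas. -/
def S_STR : Prop := ∀ (k : ℕ) (ε ε' : ℝ), 0 < ε → 0 < ε' → ∃ L0 r D u B q : ℕ, 0 < q ∧
  ∀ (n : ℕ) (F : Finset (Tm n)), Read k F → (∀ b ∈ F, Con b) →
  ε ≤ pr (fun x => ¬ val F x) →
  ∃ G ⊆ F, pr (fun x => val F x ∧ ∀ T ∈ G, ¬ Sat T x) ≤ ε' ∧
    ∀ T ∈ G, L0 < T.card → ∃ (i : Fin n) (ρ : Tm n) (V0 U : Finset (Fin n)),
      Con ρ ∧ i ∉ vr ρ ∧ ρ.card ≤ r ∧ U.card ≤ u ∧ V0.card ≤ B * T.card ∧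
      (∀ S : Finset (Fin n), S.card ≤ D → i ∈ S → Disjoint S (vr ρ) →
        1 / (2 * q : ℝ) * (1 / 2 : ℝ) ^ T.card ≤ |Mco F ρ S| → S ⊆ V0) ∧
      ∀ j ∈ vr T, j ∉ U → ∃ S : Finset (Fin n), S.card ≤ D ∧ i ∈ S ∧ j ∈ S ∧
        Disjoint S (vr ρ) ∧ 1 / (q : ℝ) * (1 / 2 : ℝ) ^ T.card ≤ |Mco F ρ S|

end Pool.Agent.Helper92.RK
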