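import Pool.Agent.Helper92.RK.Fin
import Pool.Agent.Helper6.RK.ASM
import Pool.Agent.Helper12.RK.DT2
import Pool.Agent.Helper27.RK.CM1
import Pool.Agent.Helper27.RK.GDI
import Pool.Agent.Helper27.RK.WTB
import Pool.Agent.Helper32.RK.COR
import Pool.Agent.Helper32.RK.CSZ
import Pool.Agent.Helper32.RK.HOE
import Pool.Agent.Helper33.RK.TML
import Pool.Agent.Helper36.RK.STR
import Pool.Agent.Helper52.RK.ERR
import Pool.Agent.Helper53.RK.TMH
import Pool.Agent.Helper57.RK.GEN
import Pool.Agent.Helper60.RK.CNV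
import Pool.Agent.Helper60.RK.NEG
import Pool.Agent.Helper61.RK.DT1
import Pool.Agent.Helper68.RK.CM2
import Pool.Agent.Helper68.RK.CMB
import Pool.Agent.Helper68.RK.MAS
import Pool.Agent.Helper70.RK.IND
import Pool.Agent.Helper70.RK.SAT
import Pool.Agent.Helper71.RK.FIX
import Pool.Agent.Helper72.RK.KIL
import Pool.Agent.Helper76.RK.NEE
import Pool.Agent.Helper86.RK.FIN
import Pool.Agent.Helper86.RK.FPO
import Pool.Agent.Helper88.RK.SPL
import Pool.Agent.Helper89.RK.HLF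
import Pool.Agent.Helper89.RK.NUM
import Pool.Agent.Helper99.RK.LLL

set_option autoImplicit false

/-!
# Assembly of all the parts
-/

namespace Pool.Agent.Helper92.RK

open Pool.Agent.NPC
open Pool.Agent.Helper92

theorem pIND : S_IND := Pool.Agent.Helper70.RK.IND.main
theorem pSAT : S_SAT := Pool.Agent.Helper70.RK.SAT.main pIND
theorem pFIN : S_FIN := Pool.Agent.Helper86.RK.FIN.main pSAT
theorem pLLL : S_LLL := Pool.Agent.Helper99.RK.LLL.main pIND pSAT
theorem pGEN : S_GEN := Pool.Agent.Helper57.RK.GEN.main pLLL pSAT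
theorem pFIX : S_FIX := Pool.Agent.Helper71.RK.FIX.main pSAT
theorem pKIL : S_KIL := Pool.Agent.Helper72.RK.KIL.main pSAT
theorem pGDI : S_GDI := Pool.Agent.Helper27.RK.gdi
theorem pWTB : S_WTB := Pool.Agent.Helper27.RK.wtb
theorem pCM1 : S_CM1 := Pool.Agent.Helper27.RK.cm1 pIND pSAT pFIN
theorem pCM2 : S_CM2 := Pool.Agent.Helper68.RK.CM2.main pCM1 pWTB pFIX pGEN pGDI pIND pSAT
theorem pCMB : S_CMB := Pool.Agent.Helper68.RK.CMB.main pCM2 pKIL pIND pSAT
theorem pMAS : S_MAS := Pool.Agent.Helper68.RK.MAS.main pSAT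
theorem pDT1 : S_DT1 := Pool.Agent.Helper61.RK.DT1.main pKIL
theorem pDT2 : S_DT2 := Pool.Agent.Helper12.RK.DT2.main
theorem pFPO : S_FPO := Pool.Agent.Helper86.RK.FPO.main pSAT
theorem pVSZ : S_VSZ := Pool.Agent.Helper76.RK.VSZ.main
theorem pNEE : S_NEE := Pool.Agent.Helper76.RK.NEE.main
theorem pSTR : S_STR := Pool.Agent.Helper36.RK.STR.main pFIN pCMB pMAS pDT1 pDT2 pFPO pVSZ pNEE
theorem pCOR : S_COR := Pool.Agent.Helper32.RK.COR.main
theorem pCSZ : S_CSZ := Pool.Agent.Helper32.RK.CSZ.main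
theorem pHOE : S_HOE := Pool.Agent.Helper32.RK.HOE.main
theorem pNEG : S_NEG := Pool.Agent.Helper60.RK.NEG.main
theorem pFPB : S_FPB := Pool.Agent.Helper88.RK.FPB
theorem pSPL : S_SPL := Pool.Agent.Helper88.RK.SPL
theorem pHLF : S_HLF := Pool.Agent.Helper89.RK.hlf
theorem pERR : S_ERR := Pool.Agent.Helper52.RK.ERR.main pCOR pSAT
theorem pNUM : S_NUM := Pool.Agent.Helper89.RK.num
theorem pASM : S_ASM :=
  Pool.Agent.Helper6.RK.ASM.main pSTR pHOE pNEG pFPB pSPL pHLF pERR pCSZ pNUM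
theorem pTML : S_TML := Pool.Agent.Helper33.RK.TML.main
theorem pTMH : S_TMH := Pool.Agent.Helper53.RK.TMH.main
theorem pCNV : S_CNV := Pool.Agent.Helper60.RK.CNV.main

theorem rk_result (k e : ℕ) (he : 1 ≤ e) :
    ∃ (C : ℕ) (learner : List Unit × List (List Bool × Bool) → List Bool)
      (evaluate : List Bool × List Bool → Bool),
      (∃ g : List Bool → List Bool, PolyTime g ∧ ∀ z, g (bits z) = bits (learner z)) ∧
      (∃ g : List Bool → List Bool, PolyTime g ∧ ∀ z, g (bits z) = bits (evaluate z)) ∧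
      ∀ n d t m : ℕ, 1 ≤ d → ((n + 2) * d) ^ C ≤ t → t ^ C ≤ m →
        ∀ F : List (List (ℕ × Bool)), ReadL k F →
          AM.prob (fun x : Fin m → Fin n → Bool => 1 / (e : ℝ) < AM.prob (fun y : Fin n → Bool =>
            evaluate (learner (List.replicate t (), List.ofFn fun j =>
              (List.ofFn (x j), valL F (List.ofFn (x j)))), List.ofFn y) ≠
              valL F (List.ofFn y))) ≤ 1 / d :=
  rk_main pASM pTML pTMH pCNV k e he

end Pool.Agent.Helper92.RK
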