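import Pool.Agent.Helper92.RK.Alg

set_option autoImplicit false

/-!
# The theorem on read-k formulas from the parts
-/

namespace Pool.Agent.Helper92.RK

open Finset
open Pool.Agent.NPC
open Pool.Agent.Helper92
open Pool.Agent.Helper92.AM (sample)

/-- The learner with the output as a bit string. -/
def lrnBits (L0 r D u q B e : ℕ) (z : List Unit × List (List Bool × Bool)) : List Bool :=
  bits (lrn L0 r D u q B e z.1.length z.2)

/-- The value of the hypothesis with a given code. -/
def evBits (z : List Bool × List Bool) : Bool :=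
  match unbits Hy z.1 with
  | none => false
  | some H => hv H z.2

theorem evBits_bits (H : Hy) (x : List Bool) : evBits (bits H, x) = hv H x := by
  unfold evBits
  simp only [unbits_bits]

theorem poly_lrnBits (hT : S_TML) (L0 r D u q B e : ℕ) : NPC.Poly (lrnBits L0 r D u q B e) := by
  have h := hT L0 r D u q B e
  have h1 : PC (bits : List Unit × List (List Bool × Bool) → List Bool)
      (fun x : List Bool => x) (lrnBits L0 r D u q B e) := by
    obtain ⟨c', p, h⟩ := h
    exact ⟨c', p, h⟩
  exact PC.comp (g := fun x : List Bool => x) PC.rawIn h1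

theorem poly_evBits (hT : S_TMH) : NPC.Poly evBits := by
  have h := NPC.Poly.optCases (o := fun z : List Bool × List Bool => unbits Hy z.1)
    (g := fun _ => false) (h := fun z H => hv H z.2)
    (poly_unbits.comp (NPC.Poly.fst NPC.Poly.id)) (NPC.Poly.const _)
    (hT.comp (NPC.Poly.pair (NPC.Poly.snd NPC.Poly.id) (NPC.Poly.snd (NPC.Poly.fst NPC.Poly.id))))
  refine h.congr fun z => ?_
  unfold evBits
  cases unbits Hy z.1 <;> rfl

theorem rk_main (hA : S_ASM) (hT : S_TML) (hH : S_TMH) (hC : S_CNV) (k e : ℕ) (he : 1 ≤ e) :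
    ∃ (C : ℕ) (learner : List Unit × List (List Bool × Bool) → List Bool)
      (evaluate : List Bool × List Bool → Bool),
      (∃ g : List Bool → List Bool, PolyTime g ∧ ∀ z, g (bits z) = bits (learner z)) ∧
      (∃ g : List Bool → List Bool, PolyTime g ∧ ∀ z, g (bits z) = bits (evaluate z)) ∧
      ∀ n d t m : ℕ, 1 ≤ d → ((n + 2) * d) ^ C ≤ t → t ^ C ≤ m →
        ∀ F : List (List (ℕ × Bool)), ReadL k F →
          AM.prob (fun x : Fin m → Fin n → Bool => 1 / (e : ℝ) < AM.prob (fun y : Fin n → Bool =>
            evaluate (learner (List.replicate t (), List.ofFn fun j =>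
              (List.ofFn (x j), valL F (List.ofFn (x j)))), List.ofFn y) ≠
              valL F (List.ofFn y))) ≤ 1 / d := by
  obtain ⟨C, L0, r, D, u, B, q, h⟩ := hA k e he
  refine ⟨C, lrnBits L0 r D u q B e, evBits, AM.computed_of_poly (poly_lrnBits hT L0 r D u q B e),
    AM.computed_of_poly (poly_evBits hH), ?_⟩
  intro n d t m hd ht hm F hF
  obtain ⟨F', h1, h2, h3⟩ := hC k n F hF
  have h4 := h n d t m hd ht hm F' h1 h2
  simp only [h3, lrnBits, evBits_bits, List.length_replicate]
  exact h4

end Pool.Agent.Helper92.RK
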